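import Pool.Agent.helper90.DH.SpecI

set_option autoImplicit false

open Filter Topology MeasureTheory
open scoped commutatorElement

namespace Pool.Agent.helper90.DH

open Pool.Agent.helper64.D2

theorem SJM_succ (s0 t : ℕ) : sj s0 (t + 1) = sj s0 t + sj s0 t / 4 := by
  rfl

/-- SJM: the sequence `sj`. -/
theorem SJM : SJM_stmt := by
  intro s0 hs0
  have h1 : ∀ t, s0 ≤ sj s0 t := by
    intro t
    induction t with
    | zero => simp [sj]
    | succ t ih => rw [SJM_succ]; omega
  have h2 : ∀ t, sj s0 t < sj s0 (t + 1) := by
    intro t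
    have := h1 t
    rw [SJM_succ]
    omega
  refine ⟨h1, h2, ?_, ?_, ?_, ?_, ?_⟩
  · intro t
    rw [SJM_succ]
    omega
  · intro t
    rw [SJM_succ]
    omega
  · intro t t' h
    exact monotone_nat_of_le_succ (fun n => (h2 n).le) h
  · intro t
    induction t with
    | zero => simp [sj]
    | succ t ih =>
      have := h2 t
      omega
  · intro t
    have := h1 t
    rw [SJM_succ]
    omega

end Pool.Agent.helper90.DH
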